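import Mathlib

set_option autoImplicit false

namespace Pool.Agent.Y437.LV

open Finset

/-- Finite bipartite graphs that look like the incidence graph of a projective plane of order `m`
up to a factor `K`: all degrees lie between `m / K` and `K m`, two distinct vertices of
the same class have at least one and at most `K` common neighbours, and both classes have between
`m ^ 2 / K` and `K m ^ 2` vertices. -/
structure NG where
  W : Type
  [fW : Fintype W]
  col : W → Bool
  Adj : W → W → Prop
  m : ℕ
  K : ℕ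
  hm : 1 ≤ m
  hK : 1 ≤ K
  symm : ∀ x y, Adj x y → Adj y x
  col_ne : ∀ x y, Adj x y → col x ≠ col y
  deg_le : ∀ x, Nat.card {y // Adj x y} ≤ K * m
  le_deg : ∀ x, m ≤ K * Nat.card {y // Adj x y}
  common : ∀ x y, x ≠ y → col x = col y → ∃ z, Adj x z ∧ Adj y z
  codeg_le : ∀ x y, x ≠ y → col x = col y → Nat.card {z // Adj x z ∧ Adj y z} ≤ K
  cnt_le : ∀ b, Nat.card {x // col x = b} ≤ K * m ^ 2
  le_cnt : ∀ b, m ^ 2 ≤ K * Nat.card {x // col x = b}

/-- A finite bipartite pattern, as a symmetric relation on a coloured vertex set. -/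
structure Pat where
  V : Type
  [fV : Fintype V]
  κ : V → Bool
  R : V → V → Prop
  symm : ∀ x y, R x y → R y x
  col_ne : ∀ x y, R x y → κ x ≠ κ y

attribute [instance] Pat.fV NG.fW


/-- Bounded by a polynomial in `K`. -/
def PK (A : NG → ℕ) : Prop := ∃ C c : ℕ, ∀ G : NG, A G ≤ C * G.K ^ c

theorem PK.const (n : ℕ) : PK (fun _ => n) := ⟨n, 0, fun G => by simp⟩

theorem PK.base : PK (fun G => G.K) := ⟨1, 1, fun G => by simp⟩

theorem PK.mul {A B : NG → ℕ} (hA : PK A) (hB : PK B) : PK (fun G => A G * B G) := by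
  obtain ⟨C, c, h⟩ := hA
  obtain ⟨C', c', h'⟩ := hB
  refine ⟨C * C', c + c', fun G => ?_⟩
  calc A G * B G ≤ (C * G.K ^ c) * (C' * G.K ^ c') := Nat.mul_le_mul (h G) (h' G)
    _ = _ := by ring

theorem PK.add {A B : NG → ℕ} (hA : PK A) (hB : PK B) : PK (fun G => A G + B G) := by
  obtain ⟨C, c, h⟩ := hA
  obtain ⟨C', c', h'⟩ := hB
  refine ⟨C + C', c + c', fun G => ?_⟩
  have h1 : G.K ^ c ≤ G.K ^ (c + c') := Nat.pow_le_pow_right G.hK (Nat.le_add_right _ _)
  have h2 : G.K ^ c' ≤ G.K ^ (c + c') := Nat.pow_le_pow_right G.hK (Nat.le_add_left _ _)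
  calc A G + B G ≤ (C * G.K ^ c) + (C' * G.K ^ c') := Nat.add_le_add (h G) (h' G)
    _ ≤ C * G.K ^ (c + c') + C' * G.K ^ (c + c') :=
        Nat.add_le_add (Nat.mul_le_mul_left _ h1) (Nat.mul_le_mul_left _ h2)
    _ = _ := by ring

theorem PK.pow {A : NG → ℕ} (hA : PK A) (n : ℕ) : PK (fun G => A G ^ n) := by
  induction n with
  | zero => simpa using PK.const 1
  | succ n ih =>
    have := ih.mul hA
    simpa [pow_succ] using this

/-- Being of exact order `m ^ e` up to polynomial factors in `K`. -/
def Good (f : NG → ℕ) : Prop :=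
  ∃ e : ℕ, ∃ A : NG → ℕ, PK A ∧ ∀ G : NG, f G ≤ A G * G.m ^ e ∧ G.m ^ e ≤ A G * f G

theorem Good.one : Good (fun _ : NG => 1) := ⟨0, fun _ => 1, PK.const 1, fun G => by simp⟩

theorem Good.mul {f g : NG → ℕ} (hf : Good f) (hg : Good g) :
    Good (fun G => f G * g G) := by
  obtain ⟨e, A, hA, h⟩ := hf
  obtain ⟨e', A', hA', h'⟩ := hg
  refine ⟨e + e', fun G => A G * A' G, hA.mul hA', fun G => ⟨?_, ?_⟩⟩
  · calc f G * g G ≤ (A G * G.m ^ e) * (A' G * G.m ^ e') := Nat.mul_le_mul (h G).1 (h' G).1
      _ = _ := by ring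
  · calc G.m ^ (e + e') = G.m ^ e * G.m ^ e' := pow_add _ _ _
      _ ≤ (A G * f G) * (A' G * g G) := Nat.mul_le_mul (h G).2 (h' G).2
      _ = _ := by ring

theorem Good.sandwich {f g : NG → ℕ} (hg : Good g) (B : NG → ℕ) (hB : PK B)
    (h1 : ∀ G, f G ≤ B G * g G) (h2 : ∀ G, g G ≤ B G * f G) : Good f := by
  obtain ⟨e, A, hA, h⟩ := hg
  refine ⟨e, fun G => B G * A G, hB.mul hA, fun G => ⟨?_, ?_⟩⟩
  · calc f G ≤ B G * g G := h1 G
      _ ≤ B G * (A G * G.m ^ e) := Nat.mul_le_mul_left _ (h G).1
      _ = _ := by ring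
  · calc G.m ^ e ≤ A G * g G := (h G).2
      _ ≤ A G * (B G * f G) := Nat.mul_le_mul_left _ (h2 G)
      _ = _ := by ring

theorem Good.add {f g : NG → ℕ} (hf : Good f) (hg : Good g) :
    Good (fun G => f G + g G) := by
  obtain ⟨e, A, hA, h⟩ := hf
  obtain ⟨e', A', hA', h'⟩ := hg
  refine ⟨max e e', fun G => A G + A' G, hA.add hA', fun G => ⟨?_, ?_⟩⟩
  · have h1 : G.m ^ e ≤ G.m ^ max e e' := Nat.pow_le_pow_right G.hm (le_max_left _ _)
    have h2 : G.m ^ e' ≤ G.m ^ max e e' := Nat.pow_le_pow_right G.hm (le_max_right _ _)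
    have h3 := Nat.mul_le_mul_left (A G) h1
    have h4 := Nat.mul_le_mul_left (A' G) h2
    have h5 := (h G).1
    have h6 := (h' G).1
    simp only
    rw [add_mul]
    omega
  · have h5 := (h G).2
    have h6 := (h' G).2
    have h7 : (A G + A' G) * (f G + g G) =
        A G * f G + A' G * g G + (A' G * f G + A G * g G) := by ring
    rcases le_total e e' with he | he
    · rw [max_eq_right he]
      simp only
      rw [h7]
      generalize A G * f G = a at *
      generalize A' G * g G = b at *
      generalize (A' G * f G + A G * g G) = d at *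
      omega
    · rw [max_eq_left he]
      simp only
      rw [h7]
      generalize A G * f G = a at *
      generalize A' G * g G = b at *
      generalize (A' G * f G + A G * g G) = d at *
      omega

theorem Good.add_sum {ι : Type} {f : NG → ℕ} (hf : Good f) (s : Finset ι)
    (g : ι → NG → ℕ) (hg : ∀ i ∈ s, Good (g i)) :
    Good (fun G => f G + ∑ i ∈ s, g i G) := by
  classical
  induction s using Finset.induction_on with
  | empty => simpa using hf
  | insert a s ha ih =>
    have h1 := ih (fun i hi => hg i (Finset.mem_insert_of_mem hi))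
    have h2 := hg a (Finset.mem_insert_self _ _)
    have h3 := h1.add h2
    refine h3.sandwich (fun _ => 1) (PK.const 1) (fun G => ?_) (fun G => ?_)
    · rw [Finset.sum_insert ha]; omega
    · rw [Finset.sum_insert ha]; omega

theorem good_m : Good (fun G : NG => G.m) := ⟨1, fun _ => 1, PK.const 1, fun G => by simp⟩

theorem Good.pow {f : NG → ℕ} (hf : Good f) (n : ℕ) : Good (fun G => f G ^ n) := by
  induction n with
  | zero => simpa using Good.one
  | succ n ih =>
    have := ih.mul hf
    simpa [pow_succ] using this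

/-! ### The greedy ordering of a minimal separated set -/

section Greedy

variable {V : Type} (R : V → V → Prop) (c : V)

/-- `B` together with `c` is connected, expressed by cuts. -/
def Conn (B : Finset V) : Prop :=
  ∀ J ⊆ B, J.Nonempty → ∃ x ∈ J, ∃ y, (y ∈ B ∨ y = c) ∧ y ∉ J ∧ R x y

theorem greedy [DecidableEq V] (hsymm : ∀ x y, R x y → R y x) (S : Finset V) (hcS : c ∉ S)
    (hcl : ∀ x ∈ S, ∀ y, R x y → y ∈ S ∨ y = c)
    (hmin : ∀ (z : V) (I : Finset V), I.Nonempty → I ⊆ S → I.card < S.card → z ∉ I →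
      ∃ x ∈ I, ∃ y, y ∉ I ∧ y ≠ z ∧ R x y)
    (A B : Finset V) (hAB : A ∪ B = S) (hB : B.Nonempty)
    (hconn : Conn R c B) :
    ∃ v ∈ B, (∃ y, (y ∈ A ∨ y = c) ∧ R v y) ∧ Conn R c (B.erase v) := by
  classical
  have hBS : B ⊆ S := by rw [← hAB]; exact subset_union_right
  have hcB : c ∉ B := fun h => hcS (hBS h)
  let P : ℕ → Prop := fun n => ∃ (z : V) (I : Finset V), I.card = n ∧ I.Nonempty ∧ I ⊆ B ∧ z ∉ I ∧
    (z ∈ B ∨ z = c) ∧ ∀ x ∈ I, ∀ y, (y ∈ B ∨ y = c) → R x y → y ∈ I ∨ y = z
  have hP : ∃ n, P n := by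
    refine ⟨B.card, c, B, rfl, hB, Subset.refl _, hcB, Or.inr rfl, ?_⟩
    intro x _ y hy _
    exact hy
  obtain ⟨z, I, hIn, hI, hIB, hzI, hz, hclI⟩ := Nat.find_spec hP
  have hminI : ∀ (z' : V) (J : Finset V), J.Nonempty → J ⊆ B → z' ∉ J → (z' ∈ B ∨ z' = c) →
      (∀ x ∈ J, ∀ y, (y ∈ B ∨ y = c) → R x y → y ∈ J ∨ y = z') → I.card ≤ J.card := by
    intro z' J h1 h2 h3 h4 h5
    rw [hIn]
    exact Nat.find_min' hP ⟨z', J, rfl, h1, h2, h3, h4, h5⟩
  by_cases hIS : I.card < S.card
  · obtain ⟨x, hxI, y, hyI, hyz, hxy⟩ := hmin z I hI (hIB.trans hBS) hIS hzI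
    have hxB : x ∈ B := hIB hxI
    have hyA : y ∈ A := by
      have h1 := hcl x (hBS hxB) y hxy
      have h2 : ¬ (y ∈ B ∨ y = c) := by
        intro h
        rcases hclI x hxI y h hxy with h | h
        · exact hyI h
        · exact hyz h
      rcases h1 with h1 | h1
      · rw [← hAB, mem_union] at h1
        rcases h1 with h1 | h1
        · exact h1
        · exact absurd (Or.inl h1) h2
      · exact absurd (Or.inr h1) h2
    refine ⟨x, hxB, ⟨y, Or.inl hyA, hxy⟩, ?_⟩
    intro J hJ hJne
    by_contra hcon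
    push Not at hcon
    have hJB : J ⊆ B := hJ.trans (erase_subset _ _)
    have hxJ : x ∉ J := fun h => (mem_erase.1 (hJ h)).1 rfl
    have key : ∀ a ∈ J, ∀ b, (b ∈ B ∨ b = c) → R a b → b ∈ J ∨ b = x := by
      intro a ha b hb hab
      by_contra hne
      push Not at hne
      refine hcon a ha b ?_ hne.1 hab
      rcases hb with hb | hb
      · exact Or.inl (mem_erase.2 ⟨hne.2, hb⟩)
      · exact Or.inr hb
    by_cases hzJ : z ∈ J
    · -- consider `J ∪ I`
      obtain ⟨a, ha, b, hb, hbn, hab⟩ := hconn (J ∪ I) (union_subset hJB hIB)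
        (hJne.mono subset_union_left)
      rw [mem_union, not_or] at hbn
      rcases mem_union.1 ha with ha | ha
      · rcases key a ha b hb hab with h | h
        · exact hbn.1 h
        · exact hbn.2 (h ▸ hxI)
      · rcases hclI a ha b hb hab with h | h
        · exact hbn.2 h
        · exact hbn.1 (h ▸ hzJ)
    · by_cases hJI : (J ∩ I).Nonempty
      · have h1 : I.card ≤ (J ∩ I).card := by
          refine hminI x (J ∩ I) hJI (inter_subset_left.trans hJB)
            (fun h => hxJ (mem_inter.1 h).1) (Or.inl hxB) ?_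
          intro a ha b hb hab
          rw [mem_inter] at ha
          rcases key a ha.1 b hb hab with h | h
          · rcases hclI a ha.2 b hb hab with h' | h'
            · exact Or.inl (mem_inter.2 ⟨h, h'⟩)
            · exact absurd (h' ▸ h) hzJ
          · exact Or.inr h
        have h2 : (J ∩ I).card < I.card := by
          apply card_lt_card
          refine ⟨inter_subset_right, fun h => hxJ (mem_inter.1 (h hxI)).1⟩
        omega
      · rw [not_nonempty_iff_eq_empty] at hJI
        have hdis : ∀ a, a ∈ J → a ∉ I := by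
          intro a ha ha'
          have : a ∈ J ∩ I := mem_inter.2 ⟨ha, ha'⟩
          rw [hJI] at this
          exact absurd this (notMem_empty _)
        obtain ⟨a, ha, b, hb, hbn, hab⟩ := hconn J hJB hJne
        rcases key a ha b hb hab with h | h
        · exact hbn h
        · subst h
          rcases hclI b hxI a (Or.inl (hJB ha)) (hsymm _ _ hab) with h' | h'
          · exact hdis a ha h'
          · exact hzJ (h' ▸ ha)
  · have hI2 : I = B := eq_of_subset_of_card_le hIB
      ((card_le_card hBS).trans (not_lt.1 hIS))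
    obtain ⟨x, hx, y, hy, hyB, hxy⟩ := hconn B (Subset.refl _) hB
    have hyc : y = c := hy.resolve_left hyB
    refine ⟨x, hx, ⟨y, Or.inr hyc, hxy⟩, ?_⟩
    intro J hJ hJne
    by_contra hcon
    push Not at hcon
    have hJB : J ⊆ B := hJ.trans (erase_subset _ _)
    have hxJ : x ∉ J := fun h => (mem_erase.1 (hJ h)).1 rfl
    have key : ∀ a ∈ J, ∀ b, (b ∈ B ∨ b = c) → R a b → b ∈ J ∨ b = x := by
      intro a ha b hb hab
      by_contra hne
      push Not at hne
      refine hcon a ha b ?_ hne.1 hab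
      rcases hb with hb | hb
      · exact Or.inl (mem_erase.2 ⟨hne.2, hb⟩)
      · exact Or.inr hb
    have h1 := hminI x J hJne hJB hxJ (Or.inl hx) key
    have h2 : J.card < B.card := by
      apply card_lt_card
      exact ⟨hJB, fun h => hxJ (h hx)⟩
    rw [hI2] at h1
    omega

end Greedy

/-! ### Homomorphisms -/

open Classical

/-- The homomorphisms of a pattern into a graph of the class. -/
noncomputable def homs (H : Pat) (G : NG) : Finset (H.V → G.W) :=
  univ.filter (fun φ => (∀ v, G.col (φ v) = H.κ v) ∧ ∀ u v, H.R u v → G.Adj (φ u) (φ v))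

noncomputable def cnt (H : Pat) (G : NG) : ℕ := (homs H G).card

theorem mem_homs {H : Pat} {G : NG} {φ : H.V → G.W} :
    φ ∈ homs H G ↔ (∀ v, G.col (φ v) = H.κ v) ∧ ∀ u v, H.R u v → G.Adj (φ u) (φ v) := by
  simp [homs]

/-- neighbours as a finset -/
noncomputable def nb (G : NG) (x : G.W) : Finset G.W := univ.filter (fun y => G.Adj x y)

theorem mem_nb {G : NG} {x y : G.W} : y ∈ nb G x ↔ G.Adj x y := by simp [nb]

theorem card_nb (G : NG) (x : G.W) : (nb G x).card = Nat.card {y // G.Adj x y} := by
  rw [nb, Nat.card_eq_fintype_card, Fintype.card_subtype]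

theorem card_nb_le (G : NG) (x : G.W) : (nb G x).card ≤ G.K * G.m := by
  rw [card_nb]; exact G.deg_le x

theorem le_card_nb (G : NG) (x : G.W) : G.m ≤ G.K * (nb G x).card := by
  rw [card_nb]; exact G.le_deg x

theorem card_col (G : NG) (b : Bool) :
    (univ.filter (fun x => G.col x = b)).card = Nat.card {x // G.col x = b} := by
  rw [Nat.card_eq_fintype_card, Fintype.card_subtype]

theorem card_col_le (G : NG) (b : Bool) :
    (univ.filter (fun x => G.col x = b)).card ≤ G.K * G.m ^ 2 := by
  rw [card_col]; exact G.cnt_le b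

theorem le_card_col (G : NG) (b : Bool) :
    G.m ^ 2 ≤ G.K * (univ.filter (fun x => G.col x = b)).card := by
  rw [card_col]; exact G.le_cnt b

/-- Delete the vertices outside `p`. -/
noncomputable abbrev Pat.restrict (H : Pat) (p : H.V → Prop) : Pat where
  V := {x // p x}
  κ := fun x => H.κ x.1
  R := fun x y => H.R x.1 y.1
  symm := fun x y h => H.symm _ _ h
  col_ne := fun x y h => H.col_ne _ _ h

/-- The projection identifying `w` with `u`. -/
noncomputable def proj {V : Type} (u w : V) (hne : u ≠ w) (x : V) : {x : V // x ≠ w} :=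
  if h : x = w then ⟨u, hne⟩ else ⟨x, h⟩

/-- Identify `w` with `u`. -/
noncomputable abbrev Pat.ident (H : Pat) (u w : H.V) (hne : u ≠ w) (hκ : H.κ u = H.κ w) : Pat where
  V := {x // x ≠ w}
  κ := fun x => H.κ x.1
  R := fun a b => ∃ x y, proj u w hne x = a ∧ proj u w hne y = b ∧ H.R x y
  symm := by
    rintro a b ⟨x, y, h1, h2, h3⟩
    exact ⟨y, x, h2, h1, H.symm _ _ h3⟩
  col_ne := by
    have key : ∀ x, H.κ (proj u w hne x).1 = H.κ x := by
      intro x
      unfold proj
      split_ifs with h
      · simp only; rw [h]; exact hκ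
      · rfl
    rintro a b ⟨x, y, h1, h2, h3⟩
    subst h1 h2
    show H.κ (proj u w hne x).1 ≠ H.κ (proj u w hne y).1
    rw [key, key]
    exact H.col_ne _ _ h3

/-- Homomorphisms with `φ u = φ w`. -/
noncomputable def cntId (H : Pat) (u w : H.V) (G : NG) : ℕ :=
  ((homs H G).filter (fun φ => φ u = φ w)).card

theorem cnt_ident (H : Pat) (u w : H.V) (hne : u ≠ w) (hκ : H.κ u = H.κ w) (G : NG) :
    cnt (H.ident u w hne hκ) G = cntId H u w G := by
  unfold cnt cntId
  have key : ∀ x, H.κ (proj u w hne x).1 = H.κ x := by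
    intro x
    unfold proj
    split_ifs with h
    · simp only; rw [h]; exact hκ
    · rfl
  apply Finset.card_bij' (fun (φ : (H.ident u w hne hκ).V → G.W) _ => fun x => φ (proj u w hne x))
    (fun (φ : H.V → G.W) _ => fun x => φ x.1)
  · intro φ hφ
    rw [mem_homs] at hφ
    rw [mem_filter, mem_homs]
    refine ⟨⟨fun v => ?_, fun a b hab => ?_⟩, ?_⟩
    · rw [hφ.1]
      exact key v
    · exact hφ.2 _ _ ⟨a, b, rfl, rfl, hab⟩
    · have h1 : proj u w hne u = ⟨u, hne⟩ := by
        unfold proj; rw [dif_neg hne]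
      have h2 : proj u w hne w = ⟨u, hne⟩ := by
        unfold proj; rw [dif_pos rfl]
      show φ (proj u w hne u) = φ (proj u w hne w)
      rw [h1, h2]
  · intro φ hφ
    rw [mem_filter, mem_homs] at hφ
    rw [mem_homs]
    have hφp : ∀ x, φ (proj u w hne x).1 = φ x := by
      intro x
      unfold proj
      split_ifs with h
      · simp only; rw [h]; exact hφ.2
      · rfl
    refine ⟨fun v => hφ.1.1 _, ?_⟩
    rintro a b ⟨x, y, h1, h2, h3⟩
    subst h1 h2
    show G.Adj (φ (proj u w hne x).1) (φ (proj u w hne y).1)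
    rw [hφp, hφp]
    exact hφ.1.2 _ _ h3
  · intro φ hφ
    funext x
    show φ (proj u w hne x.1) = φ x
    have : proj u w hne x.1 = x := by
      unfold proj
      rw [dif_neg x.2]
    rw [this]
  · intro φ hφ
    rw [mem_filter] at hφ
    funext x
    show φ (proj u w hne x).1 = φ x
    unfold proj
    split_ifs with h
    · simp only; rw [h]; exact hφ.2
    · rfl

theorem cntId_le (H : Pat) (u w : H.V) (G : NG) : cntId H u w G ≤ cnt H G :=
  card_le_card (filter_subset _ _)

/-! ### Extending by one vertex -/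

/-- The possible images of `v` given the images of the other vertices. -/
noncomputable def ext1 (H : Pat) (v : H.V) (G : NG)
    (ψ : (H.restrict (fun x => x ≠ v)).V → G.W) : Finset G.W :=
  univ.filter (fun y => G.col y = H.κ v ∧ ∀ u : (H.restrict (fun x => x ≠ v)).V,
    H.R v u.1 → G.Adj y (ψ u))

theorem cnt_eq_sum (H : Pat) (v : H.V) (G : NG) :
    cnt H G = ∑ ψ ∈ homs (H.restrict (fun x => x ≠ v)) G, (ext1 H v G ψ).card := by
  unfold cnt
  rw [Finset.card_eq_sum_card_fiberwise (f := fun (φ : H.V → G.W) =>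
    (fun x : (H.restrict (fun x => x ≠ v)).V => φ x.1)) (t := homs (H.restrict (fun x => x ≠ v)) G)]
  · apply Finset.sum_congr rfl
    intro ψ hψ
    rw [mem_homs] at hψ
    apply Finset.card_bij' (fun (φ : H.V → G.W) _ => φ v)
      (fun y _ => fun x => if h : x ≠ v then ψ ⟨x, h⟩ else y)
    · intro φ hφ
      rw [mem_filter, mem_homs] at hφ
      rw [ext1, mem_filter]
      refine ⟨mem_univ _, hφ.1.1 v, ?_⟩
      intro u hu
      rw [← hφ.2]
      exact hφ.1.2 _ _ hu
    · intro y hy
      rw [ext1, mem_filter] at hy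
      rw [mem_filter, mem_homs]
      refine ⟨⟨fun x => ?_, fun a b hab => ?_⟩, ?_⟩
      · by_cases h : x ≠ v
        · simp only [dif_pos h]
          exact hψ.1 ⟨x, h⟩
        · simp only [dif_neg h]
          rw [hy.2.1]
          push Not at h
          rw [h]
      · by_cases ha : a ≠ v
        · by_cases hb : b ≠ v
          · simp only [dif_pos ha, dif_pos hb]
            exact hψ.2 _ _ hab
          · simp only [dif_pos ha, dif_neg hb]
            push Not at hb
            subst hb
            exact G.symm _ _ (hy.2.2 ⟨a, ha⟩ (H.symm _ _ hab))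
        · by_cases hb : b ≠ v
          · simp only [dif_neg ha, dif_pos hb]
            push Not at ha
            subst ha
            exact hy.2.2 ⟨b, hb⟩ hab
          · push Not at ha hb
            subst ha hb
            exact absurd rfl (H.col_ne _ _ hab)
      · funext x
        exact dif_pos x.2
    · intro φ hφ
      rw [mem_filter] at hφ
      funext x
      by_cases h : x ≠ v
      · simp only [dif_pos h]
        rw [← hφ.2]
      · simp only [dif_neg h]
        push Not at h
        rw [h]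
    · intro y hy
      simp
  · intro φ hφ
    rw [Finset.mem_coe, mem_homs] at hφ
    rw [Finset.mem_coe, mem_homs]
    exact ⟨fun x => hφ.1 x.1, fun a b hab => hφ.2 _ _ hab⟩

theorem col_of_adj {G : NG} {x y : G.W} {b : Bool} (h : G.Adj x y) (hx : G.col x ≠ b) :
    G.col y = b := by
  have := G.col_ne _ _ h
  revert this hx
  cases G.col x <;> cases G.col y <;> cases b <;> simp


end Pool.Agent.Y437.LV
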