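import Mathlib
import Pool.Agent.Y437.LV.NA

set_option autoImplicit false

/-!
# Vertices of degree at most two
-/

namespace Pool.Agent.Y437.LV

open Finset Classical


theorem good_deg0 (H : Pat) (v : H.V) (hv : ∀ z, ¬ H.R v z)
    (hg : Good (cnt (H.restrict (fun x => x ≠ v)))) : Good (cnt H) := by
  have hc : ∀ (G : NG) (ψ), (ext1 H v G ψ).card =
      (univ.filter (fun x => G.col x = H.κ v)).card := by
    intro G ψ
    congr 1
    unfold ext1
    apply Finset.filter_congr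
    intro y _
    constructor
    · exact fun h => h.1
    · exact fun h => ⟨h, fun u hu => absurd hu (hv _)⟩
  have h1 : ∀ G : NG, cnt H G = cnt (H.restrict (fun x => x ≠ v)) G *
      (univ.filter (fun x => G.col x = H.κ v)).card := by
    intro G
    rw [cnt_eq_sum H v G, Finset.sum_const_nat (m := (univ.filter (fun x => G.col x = H.κ v)).card)]
    · rfl
    · intro ψ _
      exact hc G ψ
  have h2 := hg.mul (good_m.mul good_m)
  refine h2.sandwich (fun G => G.K) PK.base (fun G => ?_) (fun G => ?_)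
  · rw [h1]
    have h3 := card_col_le G (H.κ v)
    have h4 := Nat.mul_le_mul_left (cnt (H.restrict (fun x => x ≠ v)) G) h3
    refine h4.trans (le_of_eq ?_)
    ring
  · rw [h1]
    have h3 := le_card_col G (H.κ v)
    have h4 := Nat.mul_le_mul_left (cnt (H.restrict (fun x => x ≠ v)) G) h3
    refine le_trans (le_of_eq ?_) (h4.trans (le_of_eq ?_))
    · ring
    · ring

theorem good_deg1 (H : Pat) (v u : H.V) (hvu : H.R v u) (hv : ∀ z, H.R v z → z = u)
    (hg : Good (cnt (H.restrict (fun x => x ≠ v)))) : Good (cnt H) := by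
  have huv : u ≠ v := by
    rintro rfl
    exact H.col_ne _ _ hvu rfl
  have hc : ∀ (G : NG) (ψ), ψ ∈ homs (H.restrict (fun x => x ≠ v)) G →
      (ext1 H v G ψ).card = (nb G (ψ ⟨u, huv⟩)).card := by
    intro G ψ hψ
    rw [mem_homs] at hψ
    congr 1
    ext y
    rw [ext1, mem_filter, mem_nb]
    constructor
    · intro h
      exact G.symm _ _ (h.2.2 ⟨u, huv⟩ hvu)
    · intro h
      refine ⟨mem_univ _, ?_, ?_⟩
      · apply col_of_adj h
        rw [hψ.1]
        exact (H.col_ne _ _ hvu).symm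
      · rintro ⟨z, hz⟩ hvz
        have := hv z hvz
        subst this
        exact G.symm _ _ h
  have h2 := hg.mul good_m
  refine h2.sandwich (fun G => G.K) PK.base (fun G => ?_) (fun G => ?_)
  · rw [cnt_eq_sum H v G]
    refine (Finset.sum_le_card_nsmul _ _ (G.K * G.m) (fun ψ hψ => ?_)).trans (le_of_eq ?_)
    · rw [hc G ψ hψ]; exact card_nb_le G _
    · simp only [cnt, smul_eq_mul]; ring
  · rw [cnt_eq_sum H v G, Finset.mul_sum]
    refine le_trans (le_of_eq ?_) (Finset.card_nsmul_le_sum _ _ G.m (fun ψ hψ => ?_))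
    · simp only [cnt, smul_eq_mul]
    · rw [hc G ψ hψ]; exact le_card_nb G _

theorem good_deg2 (H : Pat) (v u w : H.V) (hvu : H.R v u) (hvw : H.R v w) (huw : u ≠ w)
    (hv : ∀ z, H.R v z → z = u ∨ z = w)
    (huv : u ≠ v) (hwv : w ≠ v)
    (hg : Good (cnt (H.restrict (fun x => x ≠ v))))
    (hg2 : Good (cntId (H.restrict (fun x => x ≠ v)) ⟨u, huv⟩ ⟨w, hwv⟩)) :
    Good (cnt H) := by
  have hext : ∀ (G : NG) (ψ), ψ ∈ homs (H.restrict (fun x => x ≠ v)) G →
      ∀ y, y ∈ ext1 H v G ψ ↔ G.Adj (ψ ⟨u, huv⟩) y ∧ G.Adj (ψ ⟨w, hwv⟩) y := by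
    intro G ψ hψ y
    rw [mem_homs] at hψ
    have hcu : G.col (ψ ⟨u, huv⟩) ≠ H.κ v := by
      rw [hψ.1]
      exact (H.col_ne _ _ hvu).symm
    rw [ext1, mem_filter]
    constructor
    · intro h
      exact ⟨G.symm _ _ (h.2.2 ⟨u, huv⟩ hvu), G.symm _ _ (h.2.2 ⟨w, hwv⟩ hvw)⟩
    · intro h
      refine ⟨mem_univ _, col_of_adj h.1 hcu, ?_⟩
      rintro ⟨z, hz⟩ hvz
      rcases hv z hvz with h' | h'
      · subst h'; exact G.symm _ _ h.1
      · subst h'; exact G.symm _ _ h.2
  have hcardU : ∀ (G : NG) (ψ), ψ ∈ homs (H.restrict (fun x => x ≠ v)) G →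
      (ext1 H v G ψ).card ≤ G.K * (1 + G.m * (if ψ ⟨u, huv⟩ = ψ ⟨w, hwv⟩ then 1 else 0)) := by
    intro G ψ hψ
    have hψ' := mem_homs.1 hψ
    split_ifs with heq
    · have h1 : ext1 H v G ψ ⊆ nb G (ψ ⟨u, huv⟩) := by
        intro y hy
        rw [mem_nb]
        exact ((hext G ψ hψ y).1 hy).1
      refine (card_le_card h1).trans ((card_nb_le G _).trans ?_)
      apply Nat.mul_le_mul_left
      omega
    · have hcol : G.col (ψ ⟨u, huv⟩) = G.col (ψ ⟨w, hwv⟩) := by
        have h1 := H.col_ne _ _ hvu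
        have h2 := H.col_ne _ _ hvw
        rw [hψ'.1, hψ'.1]
        change H.κ u = H.κ w
        revert h1 h2
        cases H.κ v <;> cases H.κ u <;> cases H.κ w <;> simp
      have h3 := G.codeg_le _ _ heq hcol
      rw [Nat.card_eq_fintype_card, Fintype.card_subtype] at h3
      have h4 : ext1 H v G ψ = univ.filter
          (fun z => G.Adj (ψ ⟨u, huv⟩) z ∧ G.Adj (ψ ⟨w, hwv⟩) z) := by
        ext y
        rw [hext G ψ hψ y]
        simp
      rw [h4]
      refine h3.trans ?_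
      simp
  have hcardL : ∀ (G : NG) (ψ), ψ ∈ homs (H.restrict (fun x => x ≠ v)) G →
      1 + G.m * (if ψ ⟨u, huv⟩ = ψ ⟨w, hwv⟩ then 1 else 0) ≤ (G.K + 1) * (ext1 H v G ψ).card := by
    intro G ψ hψ
    have hψ' := mem_homs.1 hψ
    split_ifs with heq
    · have h1 : ext1 H v G ψ = nb G (ψ ⟨u, huv⟩) := by
        ext y
        rw [mem_nb, hext G ψ hψ y, ← heq]
        simp
      rw [h1]
      have h2 := le_card_nb G (ψ ⟨u, huv⟩)
      have h3 := G.hm
      have h4 : 1 ≤ (nb G (ψ ⟨u, huv⟩)).card := by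
        rcases Nat.eq_zero_or_pos (nb G (ψ ⟨u, huv⟩)).card with h | h
        · rw [h] at h2; omega
        · exact h
      rw [add_mul]
      omega
    · have hcol : G.col (ψ ⟨u, huv⟩) = G.col (ψ ⟨w, hwv⟩) := by
        have h1 := H.col_ne _ _ hvu
        have h2 := H.col_ne _ _ hvw
        rw [hψ'.1, hψ'.1]
        change H.κ u = H.κ w
        revert h1 h2
        cases H.κ v <;> cases H.κ u <;> cases H.κ w <;> simp
      obtain ⟨z, hz1, hz2⟩ := G.common _ _ heq hcol
      have h5 : 0 < (ext1 H v G ψ).card := card_pos.2 ⟨z, (hext G ψ hψ z).2 ⟨hz1, hz2⟩⟩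
      rw [add_mul]
      simp only [mul_zero, add_zero]
      omega
  have hsum : ∀ G : NG, ∑ ψ ∈ homs (H.restrict (fun x => x ≠ v)) G,
      (1 + G.m * (if ψ ⟨u, huv⟩ = ψ ⟨w, hwv⟩ then 1 else 0)) =
      cnt (H.restrict (fun x => x ≠ v)) G
        + G.m * cntId (H.restrict (fun x => x ≠ v)) ⟨u, huv⟩ ⟨w, hwv⟩ G := by
    intro G
    rw [Finset.sum_add_distrib, ← Finset.mul_sum, Finset.sum_const, smul_eq_mul, mul_one]
    congr 1
    rw [cntId, Finset.card_filter]
  have h3 := hg.add (good_m.mul hg2)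
  refine h3.sandwich (fun G => G.K + 1) (PK.base.add (PK.const 1)) (fun G => ?_) (fun G => ?_)
  · rw [cnt_eq_sum H v G]
    refine (Finset.sum_le_sum (hcardU G)).trans ?_
    rw [← Finset.mul_sum, hsum G]
    exact Nat.mul_le_mul_right _ (by omega)
  · have h4 := Finset.sum_le_sum (hcardL G)
    rw [hsum G, ← Finset.mul_sum, ← cnt_eq_sum H v G] at h4
    exact h4

end Pool.Agent.Y437.LV
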