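import Mathlib
import Pool.Agent.Y437.LV.NC

set_option autoImplicit false

/-!
# Class sizes of near planes, and the bound for patterns with an edge
-/

namespace Pool.Agent.Y437.LV

open Finset Classical

/-- Double counting: the size of a class, from degrees and codegrees. -/
theorem class_size {A B : Type} [Fintype A] [Fintype B] (E : A → B → Prop) (K m : ℕ)
    (hm : 1 ≤ m) (x₀ : A)
    (h1 : ∀ x, Nat.card {y // E x y} ≤ K * m) (h2 : ∀ x, m ≤ K * Nat.card {y // E x y})
    (h3 : ∀ y, Nat.card {x // E x y} ≤ K * m) (h4 : ∀ y, m ≤ K * Nat.card {x // E x y})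
    (h5 : ∀ x x', x ≠ x' → 1 ≤ Nat.card {y // E x y ∧ E x' y})
    (h6 : ∀ x x', x ≠ x' → Nat.card {y // E x y ∧ E x' y} ≤ K) :
    Nat.card A ≤ (2 * K ^ 4) * m ^ 2 ∧ m ^ 2 ≤ (2 * K ^ 4) * Nat.card A := by
  have c1 : ∀ x, Nat.card {y // E x y} = (univ.filter (fun y => E x y)).card := by
    intro x; rw [Nat.card_eq_fintype_card, Fintype.card_subtype]
  have c2 : ∀ y, Nat.card {x // E x y} = (univ.filter (fun x => E x y)).card := by
    intro x; rw [Nat.card_eq_fintype_card, Fintype.card_subtype]
  have c3 : ∀ x x', Nat.card {y // E x y ∧ E x' y} =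
      (univ.filter (fun y => E x y ∧ E x' y)).card := by
    intro x x'; rw [Nat.card_eq_fintype_card, Fintype.card_subtype]
  have hdc : ∑ x : A, (univ.filter (fun y => E x₀ y ∧ E x y)).card =
      ∑ y ∈ univ.filter (fun y => E x₀ y), (univ.filter (fun x => E x y)).card := by
    have e1 : ∀ x : A, (univ.filter (fun y => E x₀ y ∧ E x y)).card =
        ∑ y ∈ univ.filter (fun y => E x₀ y), if E x y then 1 else 0 := by
      intro x
      rw [← Finset.card_filter, Finset.filter_filter]
    rw [Finset.sum_congr rfl (fun x _ => e1 x), Finset.sum_comm]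
    apply Finset.sum_congr rfl
    intro y _
    rw [Finset.card_filter]
  rw [Nat.card_eq_fintype_card]
  have hK : 1 ≤ K := by
    have := h2 x₀
    rcases Nat.eq_zero_or_pos K with h | h
    · subst h; omega
    · exact h
  have hdeg0 : 1 ≤ (univ.filter (fun y => E x₀ y)).card := by
    have := h2 x₀
    rw [c1] at this
    rcases Nat.eq_zero_or_pos (univ.filter (fun y => E x₀ y)).card with h | h
    · rw [h] at this; omega
    · exact h
  -- the number `S` of paths of length two from `x₀`
  set S := ∑ y ∈ univ.filter (fun y => E x₀ y), (univ.filter (fun x => E x y)).card with hS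
  have hSu : S ≤ (K * m) * (K * m) := by
    rw [hS]
    refine (Finset.sum_le_card_nsmul _ _ (K * m) (fun y _ => ?_)).trans ?_
    · rw [← c2]; exact h3 y
    · rw [smul_eq_mul, ← c1]
      exact Nat.mul_le_mul_right _ (h1 x₀)
  have hSl : m * m ≤ (K * K) * S := by
    have e1 : (univ.filter (fun y => E x₀ y)).card * m ≤ K * S := by
      rw [hS, Finset.mul_sum, ← smul_eq_mul]
      apply Finset.card_nsmul_le_sum
      intro y _
      rw [← c2]; exact h4 y
    have e2 := h2 x₀
    rw [c1] at e2
    calc m * m ≤ (K * (univ.filter (fun y => E x₀ y)).card) * m := Nat.mul_le_mul_right _ e2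
      _ = K * ((univ.filter (fun y => E x₀ y)).card * m) := by ring
      _ ≤ K * (K * S) := Nat.mul_le_mul_left _ e1
      _ = _ := by ring
  have hNl : Fintype.card A ≤ S := by
    rw [← hdc, Fintype.card_eq_sum_ones]
    apply Finset.sum_le_sum
    intro x _
    by_cases hx : x₀ = x
    · subst hx
      simpa using hdeg0
    · rw [← c3]; exact h5 x₀ x hx
  have hNu : S ≤ K * m + K * Fintype.card A := by
    rw [← hdc, ← Finset.add_sum_erase _ _ (mem_univ x₀)]
    apply Nat.add_le_add
    · have : (univ.filter (fun y => E x₀ y ∧ E x₀ y)) = univ.filter (fun y => E x₀ y) := by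
        apply Finset.filter_congr
        intro y _
        exact and_self_iff
      rw [this, ← c1]
      exact h1 x₀
    · refine (Finset.sum_le_card_nsmul _ _ K (fun x hx => ?_)).trans ?_
      · rw [← c3]
        exact h6 x₀ x (fun h => (mem_erase.1 hx).1 h.symm)
      · rw [smul_eq_mul, mul_comm]
        exact Nat.mul_le_mul_left _ (card_le_univ _)
  have hmN : m ≤ K * Fintype.card A := by
    obtain ⟨y, hy⟩ := card_pos.1 (by omega : 0 < (univ.filter (fun y => E x₀ y)).card)
    refine (h4 y).trans (Nat.mul_le_mul_left _ ?_)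
    rw [c2]
    exact card_le_univ _
  set N := Fintype.card A with hN
  have hK4 : K * K ≤ 2 * K ^ 4 := by
    have : K * K * 1 ≤ K * K * (2 * (K * K)) := Nat.mul_le_mul_left _ (by nlinarith)
    calc K * K = K * K * 1 := by ring
      _ ≤ K * K * (2 * (K * K)) := this
      _ = _ := by ring
  constructor
  · calc N ≤ (K * m) * (K * m) := hNl.trans hSu
      _ = (K * K) * m ^ 2 := by ring
      _ ≤ _ := Nat.mul_le_mul_right _ hK4
  · calc m ^ 2 = m * m := by ring
      _ ≤ (K * K) * S := hSl
      _ ≤ (K * K) * (K * m + K * N) := Nat.mul_le_mul_left _ hNu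
      _ ≤ (K * K) * (K * (K * N) + K * (K * N)) := by
          apply Nat.mul_le_mul_left
          apply Nat.add_le_add
          · exact Nat.mul_le_mul_left _ hmN
          · apply Nat.mul_le_mul_left
            exact Nat.le_mul_of_pos_left _ hK
      _ = _ := by ring

/-- The number of homomorphisms of a pattern with an edge. -/
theorem edge_bound (H : Pat) (v u : H.V) (hvu : H.R v u) (G : NG) :
    cnt H G ≤ (G.K * G.m) * (2 * (G.K * G.m ^ 2)) ^ (Fintype.card H.V - 1) := by
  have huv : u ≠ v := by
    rintro rfl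
    exact H.col_ne _ _ hvu rfl
  rw [cnt_eq_sum H v G]
  have hW : Fintype.card G.W ≤ 2 * (G.K * G.m ^ 2) := by
    have h1 := card_col_le G true
    have h2 := card_col_le G false
    have h3 : (Finset.univ.filter (fun x => G.col x = true)).card +
        (Finset.univ.filter (fun x => ¬ G.col x = true)).card = Fintype.card G.W :=
      Finset.card_filter_add_card_filter_not _
    have h4 : Finset.univ.filter (fun x => ¬ G.col x = true) =
        Finset.univ.filter (fun x => G.col x = false) := by
      apply Finset.filter_congr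
      intro x _
      simp
    rw [h4] at h3
    omega
  have hle : ∀ ψ ∈ homs (H.restrict (fun x => x ≠ v)) G, (ext1 H v G ψ).card ≤ G.K * G.m := by
    intro ψ _
    refine le_trans ?_ (card_nb_le G (ψ ⟨u, huv⟩))
    apply Finset.card_le_card
    intro y hy
    rw [ext1, Finset.mem_filter] at hy
    rw [mem_nb]
    exact G.symm _ _ (hy.2.2 ⟨u, huv⟩ hvu)
  refine (Finset.sum_le_card_nsmul _ _ _ hle).trans ?_
  rw [smul_eq_mul, mul_comm]
  apply Nat.mul_le_mul_left
  refine (Finset.card_le_univ _).trans ?_
  rw [Fintype.card_fun]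
  refine (Nat.pow_le_pow_left hW _).trans (le_of_eq ?_)
  congr 1
  exact @Set.card_ne_eq H.V H.fV v _

end Pool.Agent.Y437.LV
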